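import Pool.Agent.K4H18.LS.L16

/-!
# The local law of `(Ω(n + h_1), ..., Ω(n + h_k))` on boxes whose sides tend to infinity arbitrarily slowly

Q1 of MP_e0aac0_nt asks whether the values of `Ω` at `k` consecutive integers are asymptotically independent, all the
values being prescribed exactly. Here it is shown, for all distinct shifts `h_i`, that this holds LOCALLY as soon as the
values are prescribed up to a large constant. Let `P` be the law of `(Ω(n + h_1), ..., Ω(n + h_k))`, `n` uniform in
`{1, ..., N}`, and `Q` the law of `(Ω(m_1), ..., Ω(m_k))`, `m` uniform in `{1, ..., N}^k`, the product law of Q1. For every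
`ε` there is a constant `H₀` such that `P(box) = (1 + O(ε)) Q(box)` for EVERY box all sides of which are at least `H₀`
(in the range `|x - log log N| ≤ B √(log log N)`), although such a box has a probability of the order
`∏ (H_i / √(log log N))` only, which tends to `0`. The same holds for arbitrary sets instead of boxes, up to a
neighbourhood of bounded radius.

From Mathlib: `ArithmeticFunction.cardFactors n`: the number `Ω(n)` of prime factors with multiplicity;
`Finset.Icc 1 N`: the integers `n` with `1 ≤ n ≤ N`; `Fintype.piFinset fun _ => Icc 1 N`: the tuples with entries in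
`{1, ..., N}`. From the starting files: Mertens' theorems, the fundamental lemma of the sieve for linear forms, the
rarity of the integers with a large smooth part.
-/

set_option autoImplicit false

namespace Pool.Agent.Results.MP_e0aac0_nt.GrowingBoxes

open Finset
open ArithmeticFunction (cardFactors)

/-- `log log N`. -/
noncomputable def ll (N : ℕ) : ℝ := Real.log (Real.log N)

open Classical in
/-- The proportion of the `n` in `{1, ..., N}` such that the tuple of the `Ω(n + h i)` lies in `S`. -/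
noncomputable def shifted {k : ℕ} (h : Fin k → ℕ) (S : Set (Fin k → ℕ)) (N : ℕ) : ℝ :=
  (((Icc 1 N).filter (fun n => (fun i => cardFactors (n + h i)) ∈ S)).card : ℝ) / N

open Classical in
/-- The proportion of the `m` in `{1, ..., N}^k` such that the tuple of the `Ω(m i)` lies in `S`. -/
noncomputable def independent {k : ℕ} (S : Set (Fin k → ℕ)) (N : ℕ) : ℝ :=
  (((Fintype.piFinset (fun _ : Fin k => Icc 1 N)).filter (fun m => (fun i => cardFactors (m i)) ∈ S)).card : ℝ) /
    (N : ℝ) ^ k

/-- The box with the corner `a` and the sides `H i`. -/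
def box {k : ℕ} (a H : Fin k → ℕ) : Set (Fin k → ℕ) := {x | ∀ i, a i ≤ x i ∧ x i < a i + H i}

/-- The tuples at distance at most `R` from `S` in each coordinate. -/
def nbhd {k : ℕ} (R : ℕ) (S : Set (Fin k → ℕ)) : Set (Fin k → ℕ) := {x | ∃ s ∈ S, ∀ i, |(x i : ℤ) - s i| ≤ R}

/-- The tuples with `|x i - log log N| ≤ B √(log log N)` for all `i`. -/
def central {k : ℕ} (B : ℝ) (N : ℕ) : Set (Fin k → ℕ) := {x | ∀ i, |(x i : ℝ) - ll N| ≤ B * √(ll N)}

lemma shifted_box {k : ℕ} (h a H : Fin k → ℕ) (N : ℕ) :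
    shifted h (box a H) N = ((Pool.Agent.K4H18.LS.Bx N h a H).card : ℝ) / N := by
  classical
  unfold shifted Pool.Agent.K4H18.LS.Bx
  congr 3
  ext n
  simp only [mem_filter]
  rfl

lemma independent_box {k : ℕ} (a H : Fin k → ℕ) (N : ℕ) :
    independent (box a H) N = ∏ i, (((Pool.Agent.K4H18.LS.B1 N (a i) (H i)).card : ℝ) / N) := by
  classical
  unfold independent
  have e : (Fintype.piFinset (fun _ : Fin k => Icc 1 N)).filter (fun m => (fun i => cardFactors (m i)) ∈ box a H) =
      Fintype.piFinset (fun i => Pool.Agent.K4H18.LS.B1 N (a i) (H i)) := by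
    ext m
    rw [mem_filter, Fintype.mem_piFinset, Fintype.mem_piFinset]
    unfold Pool.Agent.K4H18.LS.B1 box
    simp only [mem_filter, Set.mem_setOf_eq]
    exact ⟨fun h i => ⟨h.1 i, h.2 i⟩, fun h => ⟨fun i => (h i).1, fun i => (h i).2⟩⟩
  rw [e, Fintype.card_piFinset, prod_div_distrib, prod_const, card_univ, Fintype.card_fin]
  push_cast
  rfl

lemma nb_eq {k : ℕ} (R : ℕ) (S : Set (Fin k → ℕ)) : Pool.Agent.K4H18.LS.nb R S = nbhd R S := by
  ext x
  unfold Pool.Agent.K4H18.LS.nb nbhd
  simp only [Set.mem_setOf_eq]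
  constructor
  · rintro ⟨s, hs, h⟩
    refine ⟨s, hs, fun i => ?_⟩
    have := h i
    rw [abs_le]
    omega
  · rintro ⟨s, hs, h⟩
    refine ⟨s, hs, fun i => ?_⟩
    have := abs_le.1 (h i)
    omega

theorem result :
    -- The asymptotic formula, with a relative error, for every box of the central region with sides at least `H₀`.
    (∀ (k : ℕ) (h : Fin k → ℕ), 1 ≤ k → Function.Injective h → ∀ ε B : ℝ, 0 < ε → ∃ H₀ N₀ : ℕ, ∀ N : ℕ, N₀ ≤ N →
      ∀ a H : Fin k → ℕ, (∀ i, H₀ ≤ H i) → (∀ i, (H i : ℝ) ≤ B * √(ll N)) → a ∈ central B N →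
        |shifted h (box a H) N - independent (box a H) N| ≤ ε * independent (box a H) N) ∧
    -- Every box with sides at least `H₀`, in all positions.
    (∀ (k : ℕ) (h : Fin k → ℕ), 1 ≤ k → Function.Injective h → ∀ ε : ℝ, 0 < ε → ∃ H₀ N₀ : ℕ, ∀ N : ℕ, N₀ ≤ N →
      ∀ a H : Fin k → ℕ, (∀ i, H₀ ≤ H i) →
        |shifted h (box a H) N - independent (box a H) N| ≤ ε * ∏ i, ((H i : ℝ) / √(ll N))) ∧
    -- All sets in the central region, up to a neighbourhood of bounded radius.
    (∀ (k : ℕ) (h : Fin k → ℕ), 1 ≤ k → Function.Injective h → ∀ ε B : ℝ, 0 < ε → ∃ R N₀ : ℕ, ∀ N : ℕ, N₀ ≤ N →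
      ∀ S : Set (Fin k → ℕ), S ⊆ central B N →
        shifted h S N ≤ (1 + ε) * independent (nbhd R S) N ∧ independent S N ≤ (1 + ε) * shifted h (nbhd R S) N) := by
  refine ⟨?_, ?_, ?_⟩
  · intro k h hk hinj ε B hε
    obtain ⟨H₀, N₀, H⟩ := Pool.Agent.K4H18.LS.box_rel k hk h hinj ε hε (max B 1) (le_max_right _ _)
    refine ⟨H₀, N₀, ?_⟩
    intro N hN a Hs hH hHB ha
    rw [shifted_box, independent_box]
    have hs : 0 ≤ √(ll N) := Real.sqrt_nonneg _
    have hBs : B * √(ll N) ≤ max B 1 * √(ll N) := mul_le_mul_of_nonneg_right (le_max_left _ _) hs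
    exact H N hN a Hs hH (fun i => (ha i).trans hBs) (fun i => (hHB i).trans hBs)
  · intro k h hk hinj ε hε
    obtain ⟨w, A, H₀, N₀, -, H⟩ := Pool.Agent.K4H18.LS.box_both k hk h hinj (min ε 1) (lt_min hε one_pos) (min_le_right _ _)
    refine ⟨H₀, N₀, ?_⟩
    intro N hN a Hs hH
    rw [shifted_box, independent_box]
    refine (H N hN a Hs hH).1.trans ?_
    exact mul_le_mul_of_nonneg_right (min_le_left _ _) (prod_nonneg fun i _ => by positivity)
  · intro k h hk hinj ε B hε
    obtain ⟨R, N₀, H⟩ := Pool.Agent.K4H18.LS.sets k hk h hinj ε hε (max B 1) (le_max_right _ _)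
    refine ⟨R, N₀, ?_⟩
    intro N hN S hS
    have hs : 0 ≤ √(ll N) := Real.sqrt_nonneg _
    have hBs : B * √(ll N) ≤ max B 1 * √(ll N) := mul_le_mul_of_nonneg_right (le_max_left _ _) hs
    rw [← nb_eq]
    exact H N hN S (fun s hs' i => (hS hs' i).trans hBs)

end Pool.Agent.Results.MP_e0aac0_nt.GrowingBoxes
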