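import Pool.Agent.K4H19.RO.Fin

set_option autoImplicit false

/-!
# Independence of `Ω` at consecutive integers after a random deletion of primes

Let the primes be deleted independently of each other, the prime `p` with probability `q p`, and let `Om D n` be the
number of prime factors of `n`, with multiplicity, which are not in the set `D` of the deleted primes. We prove that
almost surely the full statement of Q1 of MP_e0aac0_nt (all `k`, all `N → ∞`, natural averages, total variation over
all `ℓ`), with arbitrary distinct shifts, holds for `Om D`, as soon as the sum of `q p * (1 - q p) / p` over the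
primes `log N < p ≤ N` tends to infinity. For instance `q p = q` may be any constant with `0 < q < 1`, or
`q p → 0` with `q p * log (log p) → ∞`; or `q p = 1 / 2` on a very sparse set of primes and `q p = 0` elsewhere.
-/

namespace Pool.Agent.Results.MP_e0aac0_nt.RandomDeletion

open Finset Filter MeasureTheory ProbabilityTheory

open Classical in
/-- The number of prime factors of `n`, counted with multiplicity, which do not belong to `D`. -/
noncomputable def Om (D : Set ℕ) (n : ℕ) : ℕ := ∑ p ∈ n.primeFactors.filter (fun p => p ∉ D), n.factorization p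

/-- The sum of Q1 for the function `Om D` and the shifts `h i`, over all `ℓ` with entries in `{0, 1, 2, ...}`. -/
noncomputable def dev (D : Set ℕ) {k : ℕ} (h : Fin k → ℕ) (N : ℕ) : ℝ :=
  ∑' l : Fin k → ℕ, |(((Icc 1 N).filter (fun n => ∀ i, Om D (n + h i) = l i)).card : ℝ) / N -
    ∏ i, (((Icc 1 N).filter (fun n => Om D n = l i)).card : ℝ) / N|

/-- The statement Q1 for `Om D`, for all `k` and all distinct shifts (the shifts `h i = i` are those of Q1). -/
def Q1 (D : Set ℕ) : Prop := ∀ (k : ℕ) (h : Fin k → ℕ), 1 ≤ k → Function.Injective h →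
  Tendsto (fun N : ℕ => dev D h N) atTop (nhds 0)

/-- The function `Om D` is the function `Ω` of Q1 if no prime is deleted. -/
theorem Om_empty (n : ℕ) : Om ∅ n = ArithmeticFunction.cardFactors n := by
  classical
  unfold Om
  rw [ArithmeticFunction.cardFactors_eq_sum_factorization, Finsupp.sum, Nat.support_factorization]
  simp

/-- **Theorem.** Let the events `A p` (`p` is deleted) be independent, with probabilities `q p`.
(1) If the sum of `q p * (1 - q p) / p` over the primes `log N < p ≤ N` tends to infinity with `N`, then almost surely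
Q1 holds for `Om D`, where `D` is the set of the deleted primes.
(2) The same if `q p * (1 - q p) * log (log p)` tends to infinity along the primes.
(3) For every set `Q` of primes such that the sum of `1 / p` over the `p` in `Q` with `log N < p ≤ N` tends to
infinity there is a subset `D` of `Q` such that Q1 holds for `Om D`. -/
theorem result :
    (∀ {Ω : Type} [MeasurableSpace Ω] (P : Measure Ω) [IsProbabilityMeasure P] (A : ℕ → Set Ω),
      (∀ p, MeasurableSet (A p)) → iIndepSet A P → ∀ q : ℕ → ℝ, (∀ p, 0 ≤ q p) → (∀ p, q p ≤ 1) →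
      (∀ p, P (A p) = ENNReal.ofReal (q p)) →
      Tendsto (fun N : ℕ => ∑ p ∈ (Icc 1 N).filter (fun p : ℕ => p.Prime ∧ Real.log N < p),
        q p * (1 - q p) / p) atTop atTop →
      ∀ᵐ ω ∂P, Q1 {p | ω ∈ A p}) ∧
    (∀ {Ω : Type} [MeasurableSpace Ω] (P : Measure Ω) [IsProbabilityMeasure P] (A : ℕ → Set Ω),
      (∀ p, MeasurableSet (A p)) → iIndepSet A P → ∀ q : ℕ → ℝ, (∀ p, 0 ≤ q p) → (∀ p, q p ≤ 1) →
      (∀ p, P (A p) = ENNReal.ofReal (q p)) →
      (∀ C : ℝ, ∃ p₀ : ℕ, ∀ p : ℕ, p.Prime → p₀ ≤ p → C ≤ q p * (1 - q p) * Real.log (Real.log p)) →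
      ∀ᵐ ω ∂P, Q1 {p | ω ∈ A p}) ∧
    (∀ (Q : Set ℕ) [DecidablePred (· ∈ Q)], (∀ p ∈ Q, p.Prime) →
      Tendsto (fun N : ℕ => ∑ p ∈ (Icc 1 N).filter (fun p : ℕ => p ∈ Q ∧ Real.log N < p),
        (1 : ℝ) / p) atTop atTop →
      ∃ D : Set ℕ, D ⊆ Q ∧ Q1 D) := by
  refine ⟨?_, ?_, ?_⟩
  · intro Ω _ P _ A hA hind q h0 h1 hP hdiv
    exact Pool.Agent.K4H19.RO.main_ae P A hA hind q h0 h1 hP hdiv
  · intro Ω _ P _ A hA hind q h0 h1 hP hq
    exact Pool.Agent.K4H19.RO.main_ae P A hA hind q h0 h1 hP (Pool.Agent.K4H19.RO.div_of q h0 h1 hq)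
  · intro Q _ hQ hdiv
    refine Pool.Agent.K4H19.RO.main_ex Q ?_
    have e1 : (fun N : ℕ => ∑ p ∈ (Icc 1 N).filter (fun p : ℕ => (p.Prime ∧ Real.log N < p) ∧ p ∈ Q), (1 : ℝ) / p) =
        (fun N : ℕ => ∑ p ∈ (Icc 1 N).filter (fun p : ℕ => p ∈ Q ∧ Real.log N < p), (1 : ℝ) / p) := by
      funext N
      apply sum_congr _ fun _ _ => rfl
      ext p
      rw [mem_filter, mem_filter]
      constructor
      · rintro ⟨h1, ⟨h2, h3⟩, h4⟩
        exact ⟨h1, h4, h3⟩
      · rintro ⟨h1, h4, h3⟩
        exact ⟨h1, ⟨hQ p h4, h3⟩, h4⟩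
    rw [e1]
    exact hdiv

end Pool.Agent.Results.MP_e0aac0_nt.RandomDeletion
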