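import Pool.Agent.K4H14.SP.Main
import Pool.Agent.K4H19.RO.Fin

set_option autoImplicit false

/-!
# Independence of `Ω` at consecutive integers, restricted to the primes which are not inert, for almost all
quadratic fields of prime discriminant

Let `r` be an odd prime and `K` the quadratic field of discriminant `± r`. A prime `p` is inert in `K` if and only if
its Legendre symbol modulo `r` is `-1`. Let `Om D n` be the number of prime factors of `n`, with multiplicity, which
are not in the set `D`; for `D = Inert Set.univ r` these are the prime factors of `n` which split in `K` or divide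
`r`. We prove that the statement of Q1 of MP_e0aac0_nt (all `k`, natural averages, total variation over all `ℓ`), with
arbitrary distinct shifts, holds for `Om (Inert Set.univ r)` up to any given error `ε`, for all `N` in the range
`Y ≤ N ≤ Q ^ (1 / (10 k))` simultaneously, for all but `O(Q / log Q / (log Y) ^ A)` of the primes `r ≤ Q`, with any `A`.
More generally only the inert primes which belong to a given set `V` may be deleted, where `V` may be very sparse.
-/

namespace Pool.Agent.Results.MP_e0aac0_nt.SplitPrimes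

open Finset Filter

open Classical in
/-- The number of prime factors of `n`, counted with multiplicity, which do not belong to `D`. -/
noncomputable def Om (D : Set ℕ) (n : ℕ) : ℕ := ∑ p ∈ n.primeFactors.filter (fun p => p ∉ D), n.factorization p

/-- The sum of Q1 for the function `Om D` and the shifts `h i`, over all `ℓ` with entries in `{0, 1, 2, ...}`. -/
noncomputable def dev (D : Set ℕ) {k : ℕ} (h : Fin k → ℕ) (N : ℕ) : ℝ :=
  ∑' l : Fin k → ℕ, |(((Icc 1 N).filter (fun n => ∀ i, Om D (n + h i) = l i)).card : ℝ) / N -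
    ∏ i, (((Icc 1 N).filter (fun n => Om D n = l i)).card : ℝ) / N|

/-- The elements of `V` whose Legendre symbol modulo the prime `r` is `-1`. -/
def Inert (V : Set ℕ) (r : ℕ) : Set ℕ := {p | p ∈ V ∧ jacobiSym (p : ℤ) r = -1}

open Classical in
/-- The number of the primes `r ≤ Q` with the property `P`. -/
noncomputable def primesWith (Q : ℕ) (P : ℕ → Prop) : ℕ := ((Icc 1 Q).filter (fun r => r.Prime ∧ P r)).card

/-- For all `k`, all distinct shifts, all `ε > 0` and all `A`: for all but `C * (Q / log Q) / (log Y) ^ A` of the primes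
`r ≤ Q` the sum of Q1 for the function `Om (Inert V r)` is at most `ε` for all `N` with
`Y ≤ N ≤ Q ^ (1 / (10 k))`. -/
def AlmostAll (V : Set ℕ) : Prop := ∀ (k : ℕ) (h : Fin k → ℕ), 1 ≤ k → Function.Injective h → ∀ ε : ℝ, 0 < ε →
  ∀ A : ℕ, ∃ C : ℝ, 0 < C ∧ ∀ Q Y : ℕ, 2 ≤ Q → 2 ≤ Y →
    (primesWith Q (fun r => ∃ N : ℕ, Y ≤ N ∧ (N : ℝ) ≤ (Q : ℝ) ^ (1 / (10 * (k : ℝ))) ∧
      ε < dev (Inert V r) h N) : ℝ) ≤ C * (Q / Real.log Q) / (Real.log Y) ^ A

/-- The function `Om D` is the function `Ω` of Q1 if no prime is deleted. -/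
theorem Om_empty (n : ℕ) : Om ∅ n = ArithmeticFunction.cardFactors n := by
  classical
  unfold Om
  rw [ArithmeticFunction.cardFactors_eq_sum_factorization, Finsupp.sum, Nat.support_factorization]
  simp

/-- The symbol in `Inert` is the Legendre symbol. -/
theorem mem_Inert (V : Set ℕ) (r p : ℕ) [Fact r.Prime] :
    p ∈ Inert V r ↔ p ∈ V ∧ legendreSym r (p : ℤ) = -1 := by
  unfold Inert
  rw [jacobiSym.legendreSym.to_jacobiSym]
  exact Iff.rfl

/-- **Theorem.** (1) Let `V` be a set of natural numbers such that the sum of `1 / p` over the primes `p` of `V` with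
`log N < p ≤ N` tends to infinity with `N`. Then for almost all primes `r` (in the precise sense of `AlmostAll`) the
statement Q1 holds, up to `ε` and in the range `Y ≤ N ≤ Q ^ (1 / (10 k))`, for the number of prime factors left
after deleting the primes of `V` which are inert in the quadratic field of discriminant `± r`.
(2) In particular it holds for the number of prime factors which are not inert in this field. -/
theorem result :
    (∀ V : Set ℕ, (open Classical in Tendsto (fun N : ℕ => ∑ p ∈ (Icc 1 N).filter (fun p : ℕ => (p ∈ V ∧ p.Prime) ∧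
      Real.log N < p), (1 : ℝ) / p) atTop atTop) → AlmostAll V) ∧
    AlmostAll Set.univ := by
  classical
  have key : ∀ V : Set ℕ, (Tendsto (fun N : ℕ => ∑ p ∈ (Icc 1 N).filter (fun p : ℕ => p.Prime ∧ Real.log N < p),
      Pool.Agent.K4H14.SP.qv V p * (1 - Pool.Agent.K4H14.SP.qv V p) / p) atTop atTop) → AlmostAll V := by
    intro V hdiv k h hk hinj ε hε A
    obtain ⟨C, hC, hmain⟩ := Pool.Agent.K4H14.SP.main hk V hdiv h hinj ε hε A
    refine ⟨C, hC, ?_⟩
    intro Q Y hQ hY
    refine le_trans (le_of_eq ?_) (hmain Q hQ Y hY)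
    unfold primesWith
    congr 2
  refine ⟨?_, ?_⟩
  · intro V hV
    apply key
    have e1 : (fun N : ℕ => ∑ p ∈ (Icc 1 N).filter (fun p : ℕ => p.Prime ∧ Real.log N < p),
        Pool.Agent.K4H14.SP.qv V p * (1 - Pool.Agent.K4H14.SP.qv V p) / p) =
        (fun N : ℕ => 1 / 4 * ∑ p ∈ (Icc 1 N).filter (fun p : ℕ => (p ∈ V ∧ p.Prime) ∧ Real.log N < p), (1 : ℝ) / p) := by
      funext N
      rw [mul_sum]
      have e2 : (Icc 1 N).filter (fun p : ℕ => (p ∈ V ∧ p.Prime) ∧ Real.log N < p) =
          ((Icc 1 N).filter (fun p : ℕ => p.Prime ∧ Real.log N < p)).filter (fun p => p ∈ V) := by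
        ext p
        simp only [mem_filter]
        tauto
      conv_rhs => rw [e2, sum_filter]
      apply sum_congr rfl
      intro p _
      unfold Pool.Agent.K4H14.SP.qv
      split_ifs
      · ring
      · simp
    rw [e1]
    exact hV.const_mul_atTop (by norm_num)
  · apply key
    apply Pool.Agent.K4H19.RO.div_of _ (Pool.Agent.K4H14.SP.qv_nonneg _) (Pool.Agent.K4H14.SP.qv_le _)
    intro C
    have h1 : Tendsto (fun p : ℕ => Real.log (Real.log (p : ℝ))) atTop atTop :=
      Real.tendsto_log_atTop.comp (Real.tendsto_log_atTop.comp tendsto_natCast_atTop_atTop)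
    obtain ⟨p₀, hp₀⟩ := eventually_atTop.1 (h1.eventually_ge_atTop (4 * C))
    refine ⟨p₀, ?_⟩
    intro p _ hp
    have := hp₀ p hp
    unfold Pool.Agent.K4H14.SP.qv
    rw [if_pos (Set.mem_univ _)]
    linarith

end Pool.Agent.Results.MP_e0aac0_nt.SplitPrimes
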