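import Pool.Agent.K4H18.AC.A8

/-!
# The joint law of the values of `Ω` at shifted integers is absolutely continuous with respect to the product law

Q1 of MP_e0aac0_nt asserts that the law `P` of `(Ω(n + h_1), ..., Ω(n + h_k))`, `n` uniform in `{1, ..., N}`, and the
law `Q` of `(Ω(m_1), ..., Ω(m_k))`, `m` uniform in `{1, ..., N}^k`, are close in total variation (for `h_i = i - 1`).
Here we prove, uniformly in all sets `S` of `k`-tuples: `P(S) ≤ C Q(S) + ε`, where `C` depends on the shifts and on `ε`
only. Every event that is rare for independent integers is rare for consecutive integers. So the sum of Q1, which is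
at most `2`, is at most `2 - c`, and the value of `Ω` at one of the integers is not a function of the values at the
other ones, even if the function depends on `N`.

From Mathlib: `ArithmeticFunction.cardFactors n`: the number `Ω(n)` of prime factors with multiplicity;
`Finset.Icc 1 N`: the integers `n` with `1 ≤ n ≤ N`; `Fintype.piFinset fun _ => Icc 1 N`: the tuples with entries in
`{1, ..., N}`; `i.succAbove j` for `j < k`: the elements of `{0, ..., k}` different from `i`, in increasing order.
From the starting files: Mertens' theorem, the fundamental lemma of the sieve for linear forms, the Turan-Kubilius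
inequality, the local bound for the number of prime factors with harmonic weights.
-/

set_option autoImplicit false

namespace Pool.Agent.Results.MP_e0aac0_nt.UniformlyAbsolutelyContinuous

open Finset
open ArithmeticFunction (cardFactors)

open Classical in
/-- The proportion of the `n` in `{1, ..., N}` such that the tuple of the `Ω(n + h i)` lies in `S`. -/
noncomputable def shifted {k : ℕ} (h : Fin k → ℕ) (S : Set (Fin k → ℕ)) (N : ℕ) : ℝ :=
  (((Icc 1 N).filter (fun n => (fun i => cardFactors (n + h i)) ∈ S)).card : ℝ) / N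

open Classical in
/-- The proportion of the `m` in `{1, ..., N}^k` such that the tuple of the `Ω(m i)` lies in `S`. -/
noncomputable def independent {k : ℕ} (S : Set (Fin k → ℕ)) (N : ℕ) : ℝ :=
  (((Fintype.piFinset (fun _ : Fin k => Icc 1 N)).filter (fun m => (fun i => cardFactors (m i)) ∈ S)).card : ℝ) /
    (N : ℝ) ^ k

/-- The sum over `ℓ` of Q1 (tuples of positive integers `ℓ i + 1`), with shifts `h i`; Q1 is the case `h i = i`. -/
noncomputable def q1sum {k : ℕ} (h : Fin k → ℕ) (N : ℕ) : ℝ :=
  ∑' ℓ : Fin k → ℕ, |(1 / (N : ℝ)) * (((Icc 1 N).filter (fun n => ∀ i, cardFactors (n + h i) = ℓ i + 1)).card : ℝ) -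
    ∏ i : Fin k, ((1 / (N : ℝ)) * (((Icc 1 N).filter (fun n => cardFactors n = ℓ i + 1)).card : ℝ))|

theorem result :
    -- Uniform absolute continuity, for all distinct shifts.
    (∀ (k : ℕ) (h : Fin k → ℕ), Function.Injective h → ∀ ε : ℝ, 0 < ε → ∃ (C : ℝ) (N₀ : ℕ), ∀ N : ℕ, N₀ ≤ N →
      ∀ S : Set (Fin k → ℕ), shifted h S N ≤ C * independent S N + ε) ∧
    -- The sum of Q1 stays below `2`.
    (∀ (k : ℕ) (h : Fin k → ℕ), 1 ≤ k → Function.Injective h → ∃ (c : ℝ) (N₀ : ℕ), 0 < c ∧ ∀ N : ℕ, N₀ ≤ N →
      q1sum h N ≤ 2 - c) ∧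
    -- No value is a function of the others.
    (∀ (k : ℕ) (h : Fin (k + 1) → ℕ), Function.Injective h → ∀ (i : Fin (k + 1)) (ε : ℝ), 0 < ε → ∃ N₀ : ℕ,
      ∀ N : ℕ, N₀ ≤ N → ∀ φ : (Fin k → ℕ) → ℕ,
        (((Icc 1 N).filter (fun n => cardFactors (n + h i) =
          φ (fun j => cardFactors (n + h (i.succAbove j))))).card : ℝ) ≤ ε * N) := by
  refine ⟨?_, ?_, ?_⟩
  · intro k h hinj ε hε
    obtain ⟨C, N₀, -, H⟩ := Pool.Agent.K4H18.AC.main k h hinj ε hε
    exact ⟨C, N₀, fun N hN S => H N hN S⟩
  · intro k h hk hinj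
    obtain ⟨c, N₀, hc, H⟩ := Pool.Agent.K4H18.AC.q1_lt k hk h hinj
    exact ⟨c, N₀, hc, fun N hN => H N hN⟩
  · intro k h hinj i ε hε
    exact Pool.Agent.K4H18.AC.no_function k h hinj i ε hε

end Pool.Agent.Results.MP_e0aac0_nt.UniformlyAbsolutelyContinuous
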